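import Pool.Agent.V11329.BW.Drift

/-!
# Bad vertices are unlikely (MP_763ca5_pr)
-/

open Finset Filter Topology

namespace V11329.BW

variable {V : Type*} [Fintype V]

open scoped Classical

theorem exp_neg_le_quad {u : ℝ} (hu : 0 ≤ u) : Real.exp (-u) ≤ 1 - u + u ^ 2 / 2 := by
  have h1 := Real.quadratic_le_exp_of_nonneg hu
  have h2 : Real.exp (-u) * Real.exp u = 1 := by rw [← Real.exp_add]; simp
  have h3 : 0 < Real.exp u := Real.exp_pos u
  have h4 : 0 < Real.exp (-u) := Real.exp_pos _
  have h5 : 0 < 1 - u + u ^ 2 / 2 := by nlinarith [sq_nonneg (u - 1)]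
  have h6 : (1:ℝ) ≤ (1 - u + u ^ 2 / 2) * Real.exp u := by
    have : (1 - u + u ^ 2 / 2) * (1 + u + u ^ 2 / 2) ≤ (1 - u + u ^ 2 / 2) * Real.exp u :=
      mul_le_mul_of_nonneg_left h1 h5.le
    nlinarith [sq_nonneg (u ^ 2)]
  by_contra h
  push Not at h
  nlinarith

theorem exp_le_lin {b : ℝ} (h0 : 0 ≤ b) (h1 : b ≤ 1) : Real.exp b ≤ 1 + 2 * b := by
  have h2 := (convexOn_exp.2 (Set.mem_univ (0:ℝ)) (Set.mem_univ (1:ℝ)) (by linarith : 0 ≤ 1 - b)
    h0 (by ring))
  simp only [smul_eq_mul, mul_zero, mul_one, zero_add, Real.exp_zero] at h2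
  have h3 := Real.exp_one_lt_d9
  nlinarith

noncomputable def rr (a θ ε d : ℝ) (m : ℕ) : ℝ :=
  θ ^ 2 * a ^ 2 * (a ^ m) ^ 2 / (2 * d ^ 3) + 2 * ε * θ * a ^ m / (d * (d - 1))

noncomputable def rho (a θ ε d : ℝ) (L m : ℕ) : ℝ := ∑ j ∈ Finset.Ico m L, rr a θ ε d j

noncomputable def RR (G : SimpleGraph V) (a θ ε d : ℝ) (L : ℕ) (s : St V) (u : V) : ℝ :=
  ∑ v ∈ nbrs G u, rho a θ ε d L (cnt G v s.2)

noncomputable def MM (G : SimpleGraph V) (a θ ε d : ℝ) (L : ℕ) (u : V) (s : St V) : ℝ :=
  if BadS G a L s u then Real.exp (2 * θ)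
  else Real.exp (θ * Bv G a L s u + RR G a θ ε d L s u)

noncomputable def S1 (G : SimpleGraph V) (a : ℝ) (L : ℕ) (s : St V) (u : V) : ℝ :=
  ∑ v ∈ nbrs G u, if G.Adj s.1 v then wt G a L s v else 0

noncomputable def S2 (G : SimpleGraph V) (a : ℝ) (L : ℕ) (s : St V) (u : V) : ℝ :=
  ∑ v ∈ nbrs G u, if G.Adj s.1 v then (wt G a L s v) ^ 2 else 0

theorem rr_nonneg {a θ ε d : ℝ} (ha : 1 ≤ a) (hθ : 0 ≤ θ) (h0 : 0 ≤ ε) (hd : 1 < d) (m : ℕ) :
    0 ≤ rr a θ ε d m := by
  unfold rr
  have : 0 < d - 1 := by linarith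
  positivity

theorem rho_nonneg {a θ ε d : ℝ} (ha : 1 ≤ a) (hθ : 0 ≤ θ) (h0 : 0 ≤ ε) (hd : 1 < d) (L m : ℕ) :
    0 ≤ rho a θ ε d L m := Finset.sum_nonneg (fun j _ => rr_nonneg ha hθ h0 hd j)

section
variable (G : SimpleGraph V) {a θ ε : ℝ} {L d : ℕ}

theorem wt_nonneg (ha : 1 ≤ a) (s : St V) (v : V) : 0 ≤ wt G a L s v := by
  unfold wt; split_ifs
  · exact le_refl _
  · positivity

theorem RR_nonneg (ha : 1 ≤ a) (hθ : 0 ≤ θ) (h0 : 0 ≤ ε) (hd : (1:ℝ) < d) (s : St V) (u : V) :
    0 ≤ RR G a θ ε d L s u := Finset.sum_nonneg (fun v _ => rho_nonneg ha hθ h0 hd L _)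

theorem wt_step (ha : 1 ≤ a) (x y : V) (hxy : G.Adj x y) (b : Bool) (past : List (V × Bool))
    (v : V) :
    wt G a L (y, (x, b) :: past) v ≤ wt G a L (x, past) v
      + (a - 1) * (if G.Adj x v then wt G a L (x, past) v else 0)
      - (if v = y then a * wt G a L (x, past) v else 0) := by
  have h0 := wt_nonneg (L := L) G ha (x, past) v
  by_cases h1 : v = y
  · have e : wt G a L (y, (x, b) :: past) v = 0 := by
      unfold wt; rw [if_pos]; left; rw [visited_succ]; left; exact h1
    rw [e, if_pos h1, h1, if_pos hxy]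
    linarith
  · rw [if_neg h1]
    by_cases h2 : G.Adj x v
    · rw [if_pos h2]
      by_cases h3 : Visited (x, past) v ∨ L ≤ cnt G v past
      · have e1 : wt G a L (y, (x, b) :: past) v = 0 := by
          unfold wt; rw [if_pos]
          rw [visited_succ]
          rcases h3 with h3 | h3
          · left; right; exact h3
          · right
            show L ≤ cnt G v past + _
            omega
        rw [e1]
        nlinarith
      · have e1 : wt G a L (x, past) v = a ^ (cnt G v past) := by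
          unfold wt; rw [if_neg h3]
        have e2 : wt G a L (y, (x, b) :: past) v ≤ a ^ (cnt G v past + 1) := by
          have e3 : cnt G v ((x, b) :: past) = cnt G v past + 1 := by
            show cnt G v past + _ = _
            rw [if_pos h2]
          unfold wt
          rw [e3]
          split_ifs
          · positivity
          · exact le_refl _
        rw [e1]
        rw [pow_succ] at e2
        linarith
    · rw [if_neg h2]
      have e3 : cnt G v ((x, b) :: past) = cnt G v past := by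
        show cnt G v past + _ = _
        rw [if_neg h2]; rfl
      have e1 : wt G a L (y, (x, b) :: past) v = wt G a L (x, past) v := by
        unfold wt
        rw [e3, visited_succ]
        congr 1
        simp only [h1, false_or]
      rw [e1]
      linarith

theorem rho_step (ha : 1 ≤ a) (hθ : 0 ≤ θ) (h0 : 0 ≤ ε) (hd : (1:ℝ) < d) (x y : V) (b : Bool)
    (past : List (V × Bool)) (v : V) :
    rho a θ ε d L (cnt G v ((x, b) :: past)) ≤ rho a θ ε d L (cnt G v past)
      - (if G.Adj x v then (θ ^ 2 * a ^ 2 * (wt G a L (x, past) v) ^ 2 / (2 * d ^ 3)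
        + 2 * ε * θ * wt G a L (x, past) v / (d * (d - 1))) else 0) := by
  have hd1 : 0 < (d:ℝ) - 1 := by linarith
  have hd0 : 0 < (d:ℝ) := by linarith
  by_cases h2 : G.Adj x v
  · have e3 : cnt G v ((x, b) :: past) = cnt G v past + 1 := by
      show cnt G v past + _ = _
      rw [if_pos h2]
    rw [e3, if_pos h2]
    by_cases h3 : L ≤ cnt G v past
    · have e1 : wt G a L (x, past) v = 0 := by unfold wt; rw [if_pos (Or.inr h3)]
      have e4 : rho a θ ε d L (cnt G v past) = 0 := by
        unfold rho; rw [Finset.Ico_eq_empty_of_le h3]; simp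
      have e5 : rho a θ ε d L (cnt G v past + 1) = 0 := by
        unfold rho; rw [Finset.Ico_eq_empty_of_le (by omega)]; simp
      rw [e1, e4, e5]; simp
    · have e4 : rho a θ ε d L (cnt G v past)
          = rr a θ ε d (cnt G v past) + rho a θ ε d L (cnt G v past + 1) := by
        unfold rho
        exact Finset.sum_eq_sum_Ico_succ_bot (by omega) _
      rw [e4]
      have h5 : wt G a L (x, past) v ≤ a ^ (cnt G v past) := by
        unfold wt; split_ifs
        · positivity
        · exact le_refl _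
      have h6 := wt_nonneg (L := L) G ha (x, past) v
      have h7 : θ ^ 2 * a ^ 2 * (wt G a L (x, past) v) ^ 2 / (2 * d ^ 3)
          + 2 * ε * θ * wt G a L (x, past) v / (d * (d - 1)) ≤ rr a θ ε d (cnt G v past) := by
        unfold rr
        gcongr
      linarith
  · have e3 : cnt G v ((x, b) :: past) = cnt G v past := by
      show cnt G v past + _ = _
      rw [if_neg h2]; rfl
    rw [e3, if_neg h2]
    simp

theorem pointwise (hreg : ∀ x, (nbrs G x).card = d) (had : a * ((d:ℝ) - 1) = d)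
    (ha : 1 ≤ a) (hθ : 0 ≤ θ) (h0 : 0 ≤ ε) (hd : (1:ℝ) < d) (x y : V)
    (hxy : G.Adj x y) (b : Bool) (past : List (V × Bool)) (u : V) :
    θ * Bv G a L (y, (x, b) :: past) u + RR G a θ ε d L (y, (x, b) :: past) u
      ≤ θ * Bv G a L (x, past) u + RR G a θ ε d L (x, past) u
        + θ * S1 G a L (x, past) u / (d * (d - 1))
        - (if G.Adj u y then θ * a * wt G a L (x, past) y / d else 0)
        - θ ^ 2 * a ^ 2 * S2 G a L (x, past) u / (2 * d ^ 3)
        - 2 * ε * (θ * S1 G a L (x, past) u / (d * (d - 1))) := by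
  have hd1 : 0 < (d:ℝ) - 1 := by linarith
  have hd0 : 0 < (d:ℝ) := by linarith
  have ha1 : (a - 1) = 1 / ((d:ℝ) - 1) := by
    rw [eq_div_iff hd1.ne']; linarith
  -- the weights
  have hB : Bv G a L (y, (x, b) :: past) u ≤ Bv G a L (x, past) u
      + S1 G a L (x, past) u / (d * (d - 1))
      - (if G.Adj u y then a * wt G a L (x, past) y / d else 0) := by
    unfold Bv
    rw [hreg, div_le_iff₀ hd0]
    have e1 : ∑ v ∈ nbrs G u, wt G a L (y, (x, b) :: past) v
        ≤ ∑ v ∈ nbrs G u, (wt G a L (x, past) v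
      + (a - 1) * (if G.Adj x v then wt G a L (x, past) v else 0)
      - (if v = y then a * wt G a L (x, past) v else 0)) :=
      Finset.sum_le_sum (fun v _ => wt_step G ha x y hxy b past v)
    rw [Finset.sum_sub_distrib, Finset.sum_add_distrib, ← Finset.mul_sum, Finset.sum_ite_eq'] at e1
    have e2 : (if y ∈ nbrs G u then a * wt G a L (x, past) y else 0)
        = (if G.Adj u y then a * wt G a L (x, past) y / d else 0) * d := by
      by_cases h : G.Adj u y
      · rw [if_pos h, if_pos ((mem_nbrs G u y).2 h)]; field_simp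
      · rw [if_neg h, if_neg (fun h' => h ((mem_nbrs G u y).1 h'))]; ring
    rw [e2, ha1] at e1
    have e3 : (∑ v ∈ nbrs G u, if G.Adj x v then wt G a L (x, past) v else 0)
        = S1 G a L (x, past) u := rfl
    rw [e3] at e1
    calc _ ≤ _ := e1
      _ = _ := by field_simp
  have hR : RR G a θ ε d L (y, (x, b) :: past) u ≤ RR G a θ ε d L (x, past) u
      - (θ ^ 2 * a ^ 2 * S2 G a L (x, past) u / (2 * d ^ 3)
        + 2 * ε * (θ * S1 G a L (x, past) u / (d * (d - 1)))) := by
    unfold RR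
    have e1 : ∑ v ∈ nbrs G u, rho a θ ε d L (cnt G v ((x, b) :: past))
        ≤ ∑ v ∈ nbrs G u, (rho a θ ε d L (cnt G v past)
      - (if G.Adj x v then (θ ^ 2 * a ^ 2 * (wt G a L (x, past) v) ^ 2 / (2 * d ^ 3)
        + 2 * ε * θ * wt G a L (x, past) v / (d * (d - 1))) else 0)) :=
      Finset.sum_le_sum (fun v _ => rho_step G ha hθ h0 hd x y b past v)
    rw [Finset.sum_sub_distrib] at e1
    have e2 : (∑ v ∈ nbrs G u, (if G.Adj x v then
        (θ ^ 2 * a ^ 2 * (wt G a L (x, past) v) ^ 2 / (2 * (d:ℝ) ^ 3)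
        + 2 * ε * θ * wt G a L (x, past) v / (d * (d - 1))) else 0))
        = θ ^ 2 * a ^ 2 * S2 G a L (x, past) u / (2 * d ^ 3)
        + 2 * ε * (θ * S1 G a L (x, past) u / (d * (d - 1))) := by
      unfold S1 S2
      rw [Finset.mul_sum, Finset.mul_sum, Finset.sum_div, Finset.sum_div, Finset.mul_sum,
        ← Finset.sum_add_distrib]
      apply Finset.sum_congr rfl
      intro v _
      simp only
      split_ifs
      · ring
      · ring
    rw [e2] at e1
    exact e1
  have h3 : θ * Bv G a L (y, (x, b) :: past) u ≤ θ * (Bv G a L (x, past) u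
      + S1 G a L (x, past) u / (d * (d - 1))
      - (if G.Adj u y then a * wt G a L (x, past) y / d else 0)) :=
    mul_le_mul_of_nonneg_left hB hθ
  have h4 : θ * (if G.Adj u y then a * wt G a L (x, past) y / d else 0)
      = (if G.Adj u y then θ * a * wt G a L (x, past) y / d else 0) := by
    split_ifs
    · ring
    · ring
  have h5 : θ * (S1 G a L (x, past) u / (d * (d - 1))) = θ * S1 G a L (x, past) u / (d * (d - 1)) := by
    ring
  rw [mul_sub, mul_add, h4, h5] at h3
  linarith

end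

end V11329.BW
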