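import Mathlib

/-!
# The `ε`-biased walk with a history-dependent controller (MP_763ca5_pr)

A *state* of the run is the current vertex together with the list of earlier vertices, most recent
first, each marked by `true` if the step made from it was the controller's and `false` if it was a
uniformly random one.
-/

open Finset Filter Topology

namespace V11329.BW

/-- The current vertex, and the earlier vertices (most recent first); the mark of an earlier vertex
says whether the step from it was made by the controller. -/
abbrev St (V : Type*) := V × List (V × Bool)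

variable {V : Type*}

/-- `v` has been visited (the current vertex counts as visited). -/
def Visited (s : St V) (v : V) : Prop := v = s.1 ∨ v ∈ s.2.map Prod.fst

/-- Every vertex has been visited. -/
def Covered (s : St V) : Prop := ∀ v, Visited s v

/-- A strategy: at every state it picks a neighbour of the current vertex; it may use the whole
history (so also the time, which is the length of the list). -/
structure Strategy (G : SimpleGraph V) where
  move : V → List (V × Bool) → V
  adj : ∀ x past, G.Adj x (move x past)

variable [Fintype V]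

/-- The neighbours of `x`. -/
noncomputable def nbrs (G : SimpleGraph V) (x : V) : Finset V := by
  classical exact univ.filter (fun y => G.Adj x y)

/-- One step of the `ε`-biased walk: the conditional expectation of `F` of the next state given the
present state `s`.  With probability `1-ε` the walk moves to a uniformly random neighbour, with
probability `ε` to the neighbour picked by the controller. -/
noncomputable def stepE (G : SimpleGraph V) (ε : ℝ) (σ : Strategy G) (F : St V → ℝ) (s : St V) : ℝ :=
  (1 - ε) * ((∑ y ∈ nbrs G s.1, F (y, (s.1, false) :: s.2)) / (nbrs G s.1).card)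
    + ε * F (σ.move s.1 s.2, (s.1, true) :: s.2)

open scoped Classical in
/-- Indicator that some vertex is still unvisited. -/
noncomputable def unc (s : St V) : ℝ := if Covered s then 0 else 1

/-- The probability that the walk started at `v` has not visited all vertices by time `t`, that is
`P_v(τ_cov > t)`. -/
noncomputable def pUnc (G : SimpleGraph V) (ε : ℝ) (σ : Strategy G) (v : V) (t : ℕ) : ℝ :=
  (stepE G ε σ)^[t] unc (v, [])

/-- The expected cover time `E_v[τ_cov] = ∑_{t ≥ 0} P_v(τ_cov > t)`. -/
noncomputable def expCover (G : SimpleGraph V) (ε : ℝ) (σ : Strategy G) (v : V) : ENNReal :=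
  ∑' t : ℕ, ENNReal.ofReal (pUnc G ε σ v t)

/-- The `ε`-biased cover time `max_v min_σ E_v[τ_cov]`. -/
noncomputable def tcov (G : SimpleGraph V) (ε : ℝ) : ENNReal :=
  ⨆ v : V, ⨅ σ : Strategy G, expCover G ε σ v

/-! ### Basic properties of the one-step operator -/

theorem mem_nbrs (G : SimpleGraph V) (x y : V) : y ∈ nbrs G x ↔ G.Adj x y := by
  classical
  unfold nbrs
  rw [Finset.mem_filter]
  simp

omit [Fintype V] in
theorem visited_succ (y x : V) (b : Bool) (past : List (V × Bool)) (v : V) :
    Visited (y, (x, b) :: past) v ↔ (v = y ∨ Visited (x, past) v) := by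
  unfold Visited
  simp

theorem stepE_mono (G : SimpleGraph V) {ε : ℝ} (h0 : 0 ≤ ε) (h1 : ε ≤ 1) (σ : Strategy G)
    {F F' : St V → ℝ} (h : ∀ s, F s ≤ F' s) (s : St V) : stepE G ε σ F s ≤ stepE G ε σ F' s := by
  unfold stepE
  apply add_le_add
  · apply mul_le_mul_of_nonneg_left _ (by linarith)
    apply div_le_div_of_nonneg_right _ (Nat.cast_nonneg _)
    exact Finset.sum_le_sum (fun y _ => h _)
  · exact mul_le_mul_of_nonneg_left (h _) h0

theorem iter_mono (G : SimpleGraph V) {ε : ℝ} (h0 : 0 ≤ ε) (h1 : ε ≤ 1) (σ : Strategy G)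
    (t : ℕ) : ∀ {F F' : St V → ℝ}, (∀ s, F s ≤ F' s) → ∀ s : St V,
    (stepE G ε σ)^[t] F s ≤ (stepE G ε σ)^[t] F' s := by
  induction t with
  | zero => intro F F' h s; simpa using h s
  | succ t ih =>
    intro F F' h s
    rw [Function.iterate_succ_apply, Function.iterate_succ_apply]
    exact ih (stepE_mono G h0 h1 σ h) s

theorem stepE_lin (G : SimpleGraph V) (ε : ℝ) (σ : Strategy G)
    (F F' : St V → ℝ) (a b : ℝ) (s : St V) :
    stepE G ε σ (fun s => a * F s + b * F' s) s = a * stepE G ε σ F s + b * stepE G ε σ F' s := by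
  unfold stepE
  rw [Finset.sum_add_distrib, ← Finset.mul_sum, ← Finset.mul_sum]
  ring

theorem iter_lin (G : SimpleGraph V) (ε : ℝ) (σ : Strategy G) (a b : ℝ) (t : ℕ) :
    ∀ (F F' : St V → ℝ) (s : St V),
    (stepE G ε σ)^[t] (fun s => a * F s + b * F' s) s
      = a * (stepE G ε σ)^[t] F s + b * (stepE G ε σ)^[t] F' s := by
  induction t with
  | zero => intro F F' s; simp
  | succ t ih =>
    intro F F' s
    rw [Function.iterate_succ_apply, Function.iterate_succ_apply, Function.iterate_succ_apply]
    rw [← ih]
    have e : stepE G ε σ (fun s => a * F s + b * F' s)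
        = fun s => a * stepE G ε σ F s + b * stepE G ε σ F' s :=
      funext (fun s' => stepE_lin G ε σ F F' a b s')
    rw [e]

theorem stepE_sum {ι : Type*} (G : SimpleGraph V) (ε : ℝ) (σ : Strategy G) (I : Finset ι)
    (F : ι → St V → ℝ) (s : St V) :
    stepE G ε σ (fun s => ∑ i ∈ I, F i s) s = ∑ i ∈ I, stepE G ε σ (F i) s := by
  unfold stepE
  rw [Finset.sum_comm, Finset.sum_div, Finset.mul_sum, Finset.mul_sum, ← Finset.sum_add_distrib]

theorem iter_sum {ι : Type*} (G : SimpleGraph V) (ε : ℝ) (σ : Strategy G) (I : Finset ι) (t : ℕ) :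
    ∀ (F : ι → St V → ℝ) (s : St V),
    (stepE G ε σ)^[t] (fun s => ∑ i ∈ I, F i s) s = ∑ i ∈ I, (stepE G ε σ)^[t] (F i) s := by
  induction t with
  | zero => intro F s; simp
  | succ t ih =>
    intro F s
    simp only [Function.iterate_succ_apply]
    rw [← ih]
    have e : stepE G ε σ (fun s => ∑ i ∈ I, F i s)
        = fun s => ∑ i ∈ I, stepE G ε σ (F i) s :=
      funext (fun s' => stepE_sum G ε σ I F s')
    rw [e]

/-- supermartingale property of iterates -/
theorem iter_le_of_stepE_le (G : SimpleGraph V) {ε : ℝ} (h0 : 0 ≤ ε) (h1 : ε ≤ 1) (σ : Strategy G)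
    {F : St V → ℝ} (h : ∀ s, stepE G ε σ F s ≤ F s) (t : ℕ) (s : St V) :
    (stepE G ε σ)^[t] F s ≤ F s := by
  induction t with
  | zero => simp
  | succ t ih =>
    rw [Function.iterate_succ_apply]
    exact (iter_mono G h0 h1 σ t h s).trans ih

omit [Fintype V] in
theorem unc_nonneg (s : St V) : 0 ≤ unc s := by
  unfold unc; split_ifs <;> norm_num

theorem iter_nonneg (G : SimpleGraph V) {ε : ℝ} (h0 : 0 ≤ ε) (h1 : ε ≤ 1) (σ : Strategy G)
    {F : St V → ℝ} (h : ∀ s, 0 ≤ F s) (t : ℕ) (s : St V) : 0 ≤ (stepE G ε σ)^[t] F s := by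
  have hz : (stepE G ε σ)^[t] (fun _ => (0:ℝ)) s = 0 := by
    have := iter_lin G ε σ 0 0 t (fun _ => (0:ℝ)) (fun _ => (0:ℝ)) s
    simpa using this
  rw [← hz]
  exact iter_mono G h0 h1 σ t h s

end V11329.BW
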