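import Pool.Agent.V11329.BW.Defs

/-!
# The potential and its drift (MP_763ca5_pr)
-/

open Finset Filter Topology

namespace V11329.BW

variable {V : Type*} [Fintype V]

open scoped Classical

/-- The number of steps made from neighbours of `v`, for the given list of earlier positions. -/
noncomputable def cnt (G : SimpleGraph V) (v : V) : List (V × Bool) → ℕ
  | [] => 0
  | p :: l => cnt G v l + if G.Adj p.1 v then 1 else 0

/-- weight of an unvisited vertex -/
noncomputable def wt (G : SimpleGraph V) (a : ℝ) (L : ℕ) (s : St V) (v : V) : ℝ :=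
  if Visited s v ∨ L ≤ cnt G v s.2 then 0 else a ^ (cnt G v s.2)

/-- average weight of the neighbours -/
noncomputable def Bv (G : SimpleGraph V) (a : ℝ) (L : ℕ) (s : St V) (u : V) : ℝ :=
  (∑ v ∈ nbrs G u, wt G a L s v) / (nbrs G u).card

/-- `u` has been bad at some time -/
noncomputable def BadL (G : SimpleGraph V) (a : ℝ) (L : ℕ) (u : V) : List (V × Bool) → V → Prop
  | [], x => 2 < Bv G a L (x, []) u
  | p :: past, x => 2 < Bv G a L (x, p :: past) u ∨ BadL G a L u past p.1

def BadS (G : SimpleGraph V) (a : ℝ) (L : ℕ) (s : St V) (u : V) : Prop := BadL G a L u s.2 s.1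

/-- some neighbour of `v` has been bad -/
def NB (G : SimpleGraph V) (a : ℝ) (L : ℕ) (s : St V) (v : V) : Prop :=
  ∃ u, G.Adj u v ∧ BadS G a L s u

noncomputable def psi (a : ℝ) (L m : ℕ) : ℝ := a ^ m * ((L - m : ℕ) : ℝ)

noncomputable def T (G : SimpleGraph V) (a : ℝ) (L : ℕ) (s : St V) (v : V) : ℝ :=
  if Visited s v ∨ NB G a L s v then 0 else psi a L (cnt G v s.2)

noncomputable def T' (G : SimpleGraph V) (a : ℝ) (L : ℕ) (s : St V) (y v : V) : ℝ :=
  if Visited s v ∨ v = y ∨ NB G a L s v then 0
  else psi a L (cnt G v s.2 + if G.Adj s.1 v then 1 else 0)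

noncomputable def gg (G : SimpleGraph V) (a : ℝ) (L : ℕ) (s : St V) (v : V) : ℝ :=
  if Visited s v ∨ NB G a L s v ∨ ¬ G.Adj s.1 v ∨ L ≤ cnt G v s.2 then 0
  else a ^ (cnt G v s.2)

noncomputable def Phi (G : SimpleGraph V) (a : ℝ) (L : ℕ) (H : ℝ) (s : St V) : ℝ :=
  ∑ v, T G a L s v + H * ∑ u, (if BadS G a L s u then (1:ℝ) else 0)

theorem badS_succ_of (G : SimpleGraph V) (a : ℝ) (L : ℕ) (y x : V) (b : Bool)
    (past : List (V × Bool)) (u : V) (h : BadS G a L (x, past) u) :
    BadS G a L (y, (x, b) :: past) u := by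
  unfold BadS at *
  simp only [BadL]
  right; exact h

theorem badS_succ (G : SimpleGraph V) (a : ℝ) (L : ℕ) (y x : V) (b : Bool)
    (past : List (V × Bool)) (u : V) (h : BadS G a L (y, (x, b) :: past) u) :
    2 < Bv G a L (y, (x, b) :: past) u ∨ BadS G a L (x, past) u := by
  unfold BadS at *
  simp only [BadL] at h
  exact h

theorem badS_of_lt (G : SimpleGraph V) (a : ℝ) (L : ℕ) (s : St V) (u : V)
    (h : 2 < Bv G a L s u) : BadS G a L s u := by
  obtain ⟨x, past⟩ := s
  unfold BadS
  cases past with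
  | nil => exact h
  | cons p l => exact Or.inl h

theorem psi_nonneg {a : ℝ} (ha : 1 ≤ a) (L m : ℕ) : 0 ≤ psi a L m := by
  unfold psi; positivity

theorem psi_le {a : ℝ} (ha : 1 ≤ a) (L m : ℕ) : psi a L m ≤ L * a ^ L := by
  unfold psi
  by_cases h : m ≤ L
  · have h1 : a ^ m ≤ a ^ L := pow_le_pow_right₀ ha h
    have h2 : ((L - m : ℕ) : ℝ) ≤ L := by exact_mod_cast Nat.sub_le L m
    have h3 : 0 ≤ a ^ m := by positivity
    calc a ^ m * ((L - m : ℕ) : ℝ) ≤ a ^ L * L := by
          apply mul_le_mul h1 h2 (by positivity) (by positivity)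
      _ = L * a ^ L := by ring
  · have : L - m = 0 := by omega
    rw [this]
    simp
    positivity

theorem psi_step {a d : ℝ} (had : a * (d - 1) = d) (L m : ℕ) :
    (d - 1) * psi a L (m + 1) = d * (psi a L m - if L ≤ m then 0 else a ^ m) := by
  unfold psi
  by_cases h : L ≤ m
  · have h1 : L - m = 0 := by omega
    have h2 : L - (m + 1) = 0 := by omega
    rw [h1, h2, if_pos h]
    simp
  · have h1 : L - m = (L - (m + 1)) + 1 := by omega
    rw [h1, if_neg h]
    push_cast
    rw [pow_succ]
    linear_combination (a ^ m * ((L - (m + 1) : ℕ) : ℝ)) * had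

theorem psi_step_le {a d : ℝ} (had : a * (d - 1) = d) (hd : 1 < d) (ha : 1 ≤ a) (L m : ℕ) :
    psi a L m - (if L ≤ m then 0 else a ^ m) ≤ psi a L (m + 1) := by
  have h1 := psi_step had L m
  have h2 := psi_nonneg ha L (m + 1)
  nlinarith

section
variable (G : SimpleGraph V) {a : ℝ} {L d : ℕ}

theorem T_nonneg (ha : 1 ≤ a) (s : St V) (v : V) : 0 ≤ T G a L s v := by
  unfold T; split_ifs
  · exact le_refl _
  · exact psi_nonneg ha _ _

theorem T'_nonneg (ha : 1 ≤ a) (s : St V) (y v : V) : 0 ≤ T' G a L s y v := by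
  unfold T'; split_ifs
  · exact le_refl _
  · exact psi_nonneg ha _ _
  · exact psi_nonneg ha _ _

theorem gg_nonneg (ha : 1 ≤ a) (s : St V) (v : V) : 0 ≤ gg G a L s v := by
  unfold gg; split_ifs
  · exact le_refl _
  · positivity

theorem random_step (hreg : ∀ x, (nbrs G x).card = d) (had : a * ((d:ℝ) - 1) = d) (s : St V)
    (v : V) : ∑ y ∈ nbrs G s.1, T' G a L s y v = d * (T G a L s v - gg G a L s v) := by
  by_cases h1 : Visited s v ∨ NB G a L s v
  · have e1 : T G a L s v = 0 := by unfold T; rw [if_pos h1]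
    have e2 : gg G a L s v = 0 := by
      unfold gg; rw [if_pos]; tauto
    have e3 : ∀ y ∈ nbrs G s.1, T' G a L s y v = 0 := by
      intro y _
      unfold T'; rw [if_pos]; tauto
    rw [Finset.sum_eq_zero e3, e1, e2]; simp
  · have e1 : T G a L s v = psi a L (cnt G v s.2) := by unfold T; rw [if_neg h1]
    by_cases h2 : G.Adj s.1 v
    · have e2 : gg G a L s v = if L ≤ cnt G v s.2 then 0 else a ^ (cnt G v s.2) := by
        unfold gg
        by_cases h3 : L ≤ cnt G v s.2
        · rw [if_pos h3, if_pos]; tauto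
        · rw [if_neg h3, if_neg]; tauto
      have e3 : ∀ y ∈ nbrs G s.1, T' G a L s y v
          = psi a L (cnt G v s.2 + 1) - (if y = v then psi a L (cnt G v s.2 + 1) else 0) := by
        intro y _
        unfold T'
        by_cases h3 : v = y
        · rw [if_pos (by tauto), if_pos h3.symm]; ring
        · rw [if_neg (by tauto), if_pos h2, if_neg (fun e => h3 e.symm)]; ring
      rw [Finset.sum_congr rfl e3, Finset.sum_sub_distrib, Finset.sum_const, Finset.sum_ite_eq',
        if_pos ((mem_nbrs G _ _).2 h2), hreg, e1, e2, nsmul_eq_mul]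
      have := psi_step had L (cnt G v s.2)
      linarith
    · have e2 : gg G a L s v = 0 := by
        unfold gg; rw [if_pos]; tauto
      have e3 : ∀ y ∈ nbrs G s.1, T' G a L s y v = psi a L (cnt G v s.2) := by
        intro y hy
        unfold T'
        have h3 : v ≠ y := by
          rintro rfl
          exact h2 ((mem_nbrs G _ _).1 hy)
        rw [if_neg (by tauto), if_neg h2]; rfl
      rw [Finset.sum_congr rfl e3, Finset.sum_const, hreg, e1, e2, nsmul_eq_mul]
      ring

theorem controlled_step (had : a * ((d:ℝ) - 1) = d) (hd : (1:ℝ) < d) (ha : 1 ≤ a) (s : St V)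
    (y v : V) :
    T G a L s v - gg G a L s v - (if v = y then (L:ℝ) * a ^ L else 0) ≤ T' G a L s y v := by
  have hg := gg_nonneg (L := L) G ha s v
  have hT' := T'_nonneg (L := L) G ha s y v
  have hLa : 0 ≤ (L:ℝ) * a ^ L := by positivity
  by_cases h1 : Visited s v ∨ NB G a L s v
  · have e1 : T G a L s v = 0 := by unfold T; rw [if_pos h1]
    rw [e1]
    split_ifs <;> linarith
  · have e1 : T G a L s v = psi a L (cnt G v s.2) := by unfold T; rw [if_neg h1]
    by_cases h3 : v = y
    · rw [if_pos h3, e1]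
      have := psi_le ha L (cnt G v s.2)
      linarith
    · rw [if_neg h3]
      by_cases h2 : G.Adj s.1 v
      · have e2 : gg G a L s v = if L ≤ cnt G v s.2 then 0 else a ^ (cnt G v s.2) := by
          unfold gg
          by_cases h3 : L ≤ cnt G v s.2
          · rw [if_pos h3, if_pos]; tauto
          · rw [if_neg h3, if_neg]; tauto
        have e3 : T' G a L s y v = psi a L (cnt G v s.2 + 1) := by
          unfold T'; rw [if_neg (by tauto), if_pos h2]
        rw [e1, e2, e3]
        have := psi_step_le had hd ha L (cnt G v s.2)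
        linarith
      · have e2 : gg G a L s v = 0 := by
          unfold gg; rw [if_pos]; tauto
        have e3 : T' G a L s y v = psi a L (cnt G v s.2) := by
          unfold T'; rw [if_neg (by tauto), if_neg h2]; rfl
        rw [e1, e2, e3]
        linarith

theorem sum_gg_le (hreg : ∀ x, (nbrs G x).card = d) (hd : 0 < d) (ha : 1 ≤ a) (s : St V) :
    ∑ v, gg G a L s v ≤ 2 * d := by
  by_cases hb : BadS G a L s s.1
  · have : ∀ v ∈ (univ : Finset V), gg G a L s v = 0 := by
      intro v _
      unfold gg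
      rw [if_pos]
      by_cases h : G.Adj s.1 v
      · right; left; exact ⟨s.1, h, hb⟩
      · right; right; left; exact h
    rw [Finset.sum_eq_zero this]
    positivity
  · have h1 : Bv G a L s s.1 ≤ 2 := by
      by_contra h
      exact hb (badS_of_lt G a L s s.1 (not_le.1 h))
    have h2 : ∑ v, gg G a L s v ≤ ∑ v ∈ nbrs G s.1, wt G a L s v := by
      have e : ∑ v ∈ nbrs G s.1, wt G a L s v = ∑ v, if G.Adj s.1 v then wt G a L s v else 0 := by
        rw [← Finset.sum_filter]
        apply Finset.sum_congr _ (fun _ _ => rfl)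
        ext v
        rw [mem_nbrs, Finset.mem_filter]
        simp
      rw [e]
      apply Finset.sum_le_sum
      intro v _
      unfold gg wt
      have : 0 ≤ a ^ (cnt G v s.2) := by positivity
      split_ifs <;> first | linarith | (exfalso; tauto)
    unfold Bv at h1
    rw [hreg] at h1
    have hd' : (0:ℝ) < d := by exact_mod_cast hd
    rw [div_le_iff₀ hd'] at h1
    linarith

theorem T_ge (ha : 1 ≤ a) (x y : V) (b : Bool)
    (past : List (V × Bool)) (v : V) :
    T' G a L (x, past) y v ≤ T G a L (y, (x, b) :: past) v + L * a ^ L *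
      ∑ u ∈ nbrs G v, (if BadS G a L (y, (x, b) :: past) u ∧ ¬ BadS G a L (x, past) u
        then (1:ℝ) else 0) := by
  have hLa : 0 ≤ (L:ℝ) * a ^ L := by positivity
  have hS : 0 ≤ ∑ u ∈ nbrs G v, (if BadS G a L (y, (x, b) :: past) u ∧ ¬ BadS G a L (x, past) u
        then (1:ℝ) else 0) := Finset.sum_nonneg (fun u _ => by split_ifs <;> norm_num)
  have hT := T_nonneg (L := L) G ha (y, (x, b) :: past) v
  by_cases h1 : Visited (x, past) v ∨ v = y ∨ NB G a L (x, past) v
  · have e1 : T' G a L (x, past) y v = 0 := by unfold T'; rw [if_pos h1]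
    rw [e1]; positivity
  · have e1 : T' G a L (x, past) y v = psi a L (cnt G v past + if G.Adj x v then 1 else 0) := by
      unfold T'; rw [if_neg h1]
    by_cases h2 : NB G a L (y, (x, b) :: past) v
    · obtain ⟨u, hu, hbu⟩ := h2
      have h3 : ¬ BadS G a L (x, past) u := fun h => h1 (Or.inr (Or.inr ⟨u, hu, h⟩))
      have h4 : (1:ℝ) ≤ ∑ u ∈ nbrs G v, (if BadS G a L (y, (x, b) :: past) u ∧
          ¬ BadS G a L (x, past) u then (1:ℝ) else 0) := by
        have := Finset.single_le_sum (f := fun u => (if BadS G a L (y, (x, b) :: past) u ∧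
          ¬ BadS G a L (x, past) u then (1:ℝ) else 0)) (s := nbrs G v)
          (fun u _ => by split_ifs <;> norm_num) ((mem_nbrs G v u).2 hu.symm)
        simp only [hbu, h3, not_false_eq_true, and_self, if_true] at this
        exact this
      rw [e1]
      have h5 := psi_le ha L (cnt G v past + if G.Adj x v then 1 else 0)
      nlinarith
    · have e2 : T G a L (y, (x, b) :: past) v = psi a L (cnt G v past + if G.Adj x v then 1 else 0) := by
        unfold T
        rw [if_neg]
        · rfl
        · rw [visited_succ]; tauto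
      rw [e1, e2]
      have : 0 ≤ (L:ℝ) * a ^ L * ∑ u ∈ nbrs G v, (if BadS G a L (y, (x, b) :: past) u ∧
          ¬ BadS G a L (x, past) u then (1:ℝ) else 0) := mul_nonneg hLa hS
      linarith

theorem sum_new (hreg : ∀ x, (nbrs G x).card = d) (f : V → ℝ) :
    ∑ v, ∑ u ∈ nbrs G v, f u = d * ∑ u, f u := by
  have e : ∀ v, ∑ u ∈ nbrs G v, f u = ∑ u, if G.Adj v u then f u else 0 := by
    intro v
    rw [← Finset.sum_filter]
    apply Finset.sum_congr _ (fun _ _ => rfl)
    ext u
    rw [mem_nbrs, Finset.mem_filter]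
    simp
  simp_rw [e]
  rw [Finset.sum_comm, Finset.mul_sum]
  apply Finset.sum_congr rfl
  intro u _
  rw [← Finset.sum_filter, Finset.sum_const, nsmul_eq_mul]
  congr 1
  norm_cast
  rw [← hreg u]
  congr 1
  ext v
  rw [mem_nbrs, Finset.mem_filter, G.adj_comm]
  simp

theorem Phi_succ_ge (hreg : ∀ x, (nbrs G x).card = d) (ha : 1 ≤ a) (x y : V) (b : Bool)
    (past : List (V × Bool)) :
    ∑ v, T' G a L (x, past) y v
      + (d * (L * a ^ L)) * ∑ u, (if BadS G a L (x, past) u then (1:ℝ) else 0)
      ≤ Phi G a L (d * (L * a ^ L)) (y, (x, b) :: past) := by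
  unfold Phi
  have h1 : ∑ v, T' G a L (x, past) y v ≤ ∑ v, T G a L (y, (x, b) :: past) v + (L * a ^ L) *
      (d * ∑ u, (if BadS G a L (y, (x, b) :: past) u ∧ ¬ BadS G a L (x, past) u
        then (1:ℝ) else 0)) := by
    rw [← sum_new G hreg, Finset.mul_sum, ← Finset.sum_add_distrib]
    exact Finset.sum_le_sum (fun v _ => T_ge G ha x y b past v)
  have h2 : ∑ u, (if BadS G a L (y, (x, b) :: past) u then (1:ℝ) else 0)
      = ∑ u, (if BadS G a L (x, past) u then (1:ℝ) else 0)
        + ∑ u, (if BadS G a L (y, (x, b) :: past) u ∧ ¬ BadS G a L (x, past) u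
        then (1:ℝ) else 0) := by
    rw [← Finset.sum_add_distrib]
    apply Finset.sum_congr rfl
    intro u _
    have := badS_succ_of G a L y x b past u
    by_cases h3 : BadS G a L (x, past) u
    · simp [h3, this h3]
    · simp [h3]
  rw [h2]
  nlinarith

theorem Phi_drift (hreg : ∀ x, (nbrs G x).card = d) (had : a * ((d:ℝ) - 1) = d)
    (hd : (1:ℝ) < d) (ha : 1 ≤ a) {ε : ℝ} (h0 : 0 ≤ ε) (h1 : ε ≤ 1) (σ : Strategy G) (s : St V) :
    Phi G a L (d * (L * a ^ L)) s - (2 * d + ε * (L * a ^ L)) * unc s
      ≤ stepE G ε σ (Phi G a L (d * (L * a ^ L))) s := by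
  obtain ⟨x, past⟩ := s
  set H : ℝ := d * (L * a ^ L) with hH
  set Nb : ℝ := ∑ u, (if BadS G a L (x, past) u then (1:ℝ) else 0) with hNb
  have hd0 : (0:ℝ) < d := by linarith
  have hdn : 0 < d := by exact_mod_cast hd0
  have hLa : 0 ≤ (L:ℝ) * a ^ L := by positivity
  unfold stepE
  rw [hreg]
  simp only
  by_cases hc : Covered (x, past)
  · -- everything visited
    have hu : unc (x, past) = 0 := by unfold unc; rw [if_pos hc]
    have hT : ∀ v, T G a L (x, past) v = 0 := by
      intro v; unfold T; rw [if_pos (Or.inl (hc v))]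
    have hPhi : Phi G a L H (x, past) = H * Nb := by
      unfold Phi; simp only [hT]; simp [hNb]
    have hge : ∀ y b, H * Nb ≤ Phi G a L H (y, (x, b) :: past) := by
      intro y b
      have := Phi_succ_ge (L := L) G hreg ha x y b past
      have h3 : ∑ v, T' G a L (x, past) y v = 0 :=
        Finset.sum_eq_zero (fun v _ => by unfold T'; rw [if_pos (Or.inl (hc v))])
      rw [h3] at this
      rw [← hNb, ← hH] at this
      linarith
    rw [hu, hPhi]
    have h2 : H * Nb ≤ (∑ y ∈ nbrs G x, Phi G a L H (y, (x, false) :: past)) / (d:ℝ) := by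
      rw [le_div_iff₀ hd0]
      calc H * Nb * d = ∑ y ∈ nbrs G x, H * Nb := by
            rw [Finset.sum_const, hreg, nsmul_eq_mul]; ring
        _ ≤ _ := Finset.sum_le_sum (fun y _ => hge y false)
    have h3 := hge (σ.move x past) true
    nlinarith
  · have hu : unc (x, past) = 1 := by unfold unc; rw [if_neg hc]
    have hg := sum_gg_le (L := L) G hreg hdn ha (x, past)
    have hPhi : Phi G a L H (x, past) = ∑ v, T G a L (x, past) v + H * Nb := rfl
    have h2 : ∑ v, T G a L (x, past) v - 2 * d + H * Nb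
        ≤ (∑ y ∈ nbrs G x, Phi G a L H (y, (x, false) :: past)) / (d:ℝ) := by
      rw [le_div_iff₀ hd0]
      have e1 : ∑ y ∈ nbrs G x, ∑ v, T' G a L (x, past) y v
          = d * (∑ v, T G a L (x, past) v - ∑ v, gg G a L (x, past) v) := by
        rw [Finset.sum_comm, ← Finset.sum_sub_distrib, Finset.mul_sum]
        apply Finset.sum_congr rfl
        intro v _
        exact random_step G hreg had (x, past) v
      calc (∑ v, T G a L (x, past) v - 2 * d + H * Nb) * d
          ≤ d * (∑ v, T G a L (x, past) v - ∑ v, gg G a L (x, past) v) + d * (H * Nb) := by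
            nlinarith
        _ = ∑ y ∈ nbrs G x, (∑ v, T' G a L (x, past) y v + H * Nb) := by
            rw [Finset.sum_add_distrib, e1, Finset.sum_const, hreg, nsmul_eq_mul]
        _ ≤ _ := Finset.sum_le_sum (fun y _ => Phi_succ_ge (L := L) G hreg ha x y false past)
    have h3 : ∑ v, T G a L (x, past) v - 2 * d - L * a ^ L + H * Nb
        ≤ Phi G a L H (σ.move x past, (x, true) :: past) := by
      refine le_trans ?_ (Phi_succ_ge (L := L) G hreg ha x (σ.move x past) true past)
      have e2 : ∑ v, (T G a L (x, past) v - gg G a L (x, past) v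
          - (if v = σ.move x past then (L:ℝ) * a ^ L else 0))
          ≤ ∑ v, T' G a L (x, past) (σ.move x past) v :=
        Finset.sum_le_sum (fun v _ => controlled_step G had hd ha (x, past) (σ.move x past) v)
      rw [Finset.sum_sub_distrib, Finset.sum_sub_distrib, Finset.sum_ite_eq', if_pos (mem_univ _)]
        at e2
      rw [← hH, ← hNb]
      linarith
    rw [hu, hPhi]
    have h4 : (1 - ε) * (∑ v, T G a L (x, past) v - 2 * d + H * Nb)
        ≤ (1 - ε) * ((∑ y ∈ nbrs G x, Phi G a L H (y, (x, false) :: past)) / (d:ℝ)) :=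
      mul_le_mul_of_nonneg_left h2 (by linarith)
    have h5 : ε * (∑ v, T G a L (x, past) v - 2 * d - L * a ^ L + H * Nb)
        ≤ ε * Phi G a L H (σ.move x past, (x, true) :: past) :=
      mul_le_mul_of_nonneg_left h3 h0
    nlinarith

end

end V11329.BW
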