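import Pool.Agent.V11329.BW.Main

/-!
# Linear-time covering needs bounded degree or bounded bias (MP_763ca5_pr)
-/

open Finset Filter Topology

namespace V11329.BW

variable {V : Type*} [Fintype V]

open scoped Classical

section
variable (G : SimpleGraph V) {ε : ℝ} {d : ℕ}

theorem unc_eq_one_of_short (s : St V) (h : s.2.length + 1 < Fintype.card V) : unc s = 1 := by
  unfold unc
  rw [if_neg]
  intro hc
  have h1 : (univ : Finset V) ⊆ insert s.1 (s.2.map Prod.fst).toFinset := by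
    intro v _
    rw [Finset.mem_insert, List.mem_toFinset]
    exact hc v
  have h2 := Finset.card_le_card h1
  have h3 := Finset.card_insert_le s.1 (s.2.map Prod.fst).toFinset
  have h4 := List.toFinset_card_le (s.2.map Prod.fst)
  rw [List.length_map] at h4
  rw [Finset.card_univ] at h2
  omega

theorem iter_unc_short (hreg : ∀ x, (nbrs G x).card = d) (hd : 1 ≤ d) (σ : Strategy G) (t : ℕ) :
    ∀ s : St V, s.2.length + 1 + t < Fintype.card V → (stepE G ε σ)^[t] unc s = 1 := by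
  induction t with
  | zero => intro s hs; exact unc_eq_one_of_short s hs
  | succ t ih =>
    intro s hs
    rw [Function.iterate_succ_apply']
    unfold stepE
    rw [hreg]
    have hd0 : (d:ℝ) ≠ 0 := by positivity
    have e1 : ∀ y b, (stepE G ε σ)^[t] unc (y, (s.1, b) :: s.2) = 1 := by
      intro y b
      apply ih
      simp only [List.length_cons]
      omega
    change (1 - ε) * ((∑ y ∈ nbrs G s.1, (stepE G ε σ)^[t] unc (y, (s.1, false) :: s.2)) / d)
      + ε * (stepE G ε σ)^[t] unc (σ.move s.1 s.2, (s.1, true) :: s.2) = 1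
    simp only [e1]
    rw [Finset.sum_const, hreg, nsmul_eq_mul, mul_one, div_self hd0]
    ring

theorem trivial_bound (hreg : ∀ x, (nbrs G x).card = d) (hd : 1 ≤ d) (σ : Strategy G) (v₀ : V) :
    ENNReal.ofReal ((Fintype.card V : ℝ) - 1) ≤ expCover G ε σ v₀ := by
  have h1 : ∑ i ∈ range (Fintype.card V - 1), ENNReal.ofReal (pUnc G ε σ v₀ i)
      ≤ expCover G ε σ v₀ := ENNReal.sum_le_tsum _
  have h2 : ∀ i ∈ range (Fintype.card V - 1), ENNReal.ofReal (pUnc G ε σ v₀ i) = 1 := by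
    intro i hi
    rw [Finset.mem_range] at hi
    have : pUnc G ε σ v₀ i = 1 := by
      unfold pUnc
      apply iter_unc_short G hreg hd σ i
      simp only [List.length_nil]
      omega
    rw [this, ENNReal.ofReal_one]
  rw [Finset.sum_congr rfl h2] at h1
  simp only [sum_const, card_range, nsmul_eq_mul, mul_one] at h1
  refine le_trans ?_ h1
  have hpos : 0 < Fintype.card V := Fintype.card_pos_iff.2 ⟨v₀⟩
  have e : ((Fintype.card V : ℝ) - 1) = ((Fintype.card V - 1 : ℕ) : ℝ) := by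
    rw [Nat.cast_sub (by omega)]; simp
  rw [e, ENNReal.ofReal_natCast]

end

theorem exists_K0 : ∃ K0 : ℕ, 1 ≤ K0 ∧ ∀ K : ℕ, K0 ≤ K →
    (196608:ℝ) * (K:ℝ) ^ 3 ≤ Real.exp K := by
  have h := Real.tendsto_pow_mul_exp_neg_atTop_nhds_zero 3
  have h2 : Tendsto (fun K : ℕ => (K:ℝ) ^ 3 * Real.exp (-(K:ℝ))) atTop (𝓝 0) :=
    h.comp tendsto_natCast_atTop_atTop
  have h3 := h2.eventually (gt_mem_nhds (show (0:ℝ) < 1 / 196608 by norm_num))
  obtain ⟨K1, hK1⟩ := eventually_atTop.1 h3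
  refine ⟨max K1 1, le_max_right _ _, fun K hK => ?_⟩
  have h4 := hK1 K (le_trans (le_max_left _ _) hK)
  rw [Real.exp_neg] at h4
  have h5 := Real.exp_pos (K:ℝ)
  rw [← div_eq_mul_inv, div_lt_iff₀ h5] at h4
  linarith

theorem numeric {K : ℕ} (hK1 : 1 ≤ K) (hK : (196608:ℝ) * (K:ℝ) ^ 3 ≤ Real.exp K) {x : ℝ}
    (hx : Real.exp (4 * K) ≤ x) :
    x * Real.exp K * Real.exp (-(x / (16 * (K * Real.exp (2 * K))))) ≤ 1 / 8 := by
  have hKr : (1:ℝ) ≤ K := by exact_mod_cast hK1
  set e := Real.exp (K:ℝ) with he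
  have hepos : 0 < e := Real.exp_pos _
  have e2 : Real.exp (2 * K) = e ^ 2 := by rw [he, ← Real.exp_nat_mul]; norm_num
  have e4 : Real.exp (4 * K) = e ^ 4 := by rw [he, ← Real.exp_nat_mul]; norm_num
  rw [e2]
  rw [e4] at hx
  set y := x / (16 * (K * e ^ 2)) with hy
  have hden : 0 < 16 * (K * e ^ 2) := by positivity
  have hxy : x = 16 * (K * e ^ 2) * y := by rw [hy]; field_simp
  have hy1 : e ^ 2 / (16 * K) ≤ y := by
    rw [hy, div_le_div_iff₀ (by positivity) hden]
    nlinarith [mul_le_mul_of_nonneg_right hx (by positivity : (0:ℝ) ≤ 16 * K)]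
  have hy0 : 0 < y := lt_of_lt_of_le (by positivity) hy1
  have h3 : y ^ 3 / 6 ≤ Real.exp y := by
    have h := Real.pow_div_factorial_le_exp y hy0.le 3
    norm_num [Nat.factorial] at h
    linarith
  have h4 : 8 * (x * e) ≤ Real.exp y := by
    refine le_trans ?_ h3
    have h5 : (e ^ 2 / (16 * K)) ^ 2 ≤ y ^ 2 := pow_le_pow_left₀ (by positivity) hy1 2
    have h6 : (e ^ 2 / (16 * K)) ^ 2 = e ^ 4 / (256 * K ^ 2) := by
      rw [div_pow]; ring
    have h7 : 768 * K * e ^ 3 ≤ e ^ 4 / (256 * (K:ℝ) ^ 2) := by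
      rw [le_div_iff₀ (by positivity)]
      have : 768 * K * e ^ 3 * (256 * (K:ℝ) ^ 2) = (196608 * (K:ℝ) ^ 3) * e ^ 3 := by ring
      rw [this]
      calc (196608 * (K:ℝ) ^ 3) * e ^ 3 ≤ e * e ^ 3 :=
            mul_le_mul_of_nonneg_right hK (by positivity)
        _ = e ^ 4 := by ring
    have h8 : 768 * K * e ^ 3 ≤ y ^ 2 := by rw [h6] at h5; linarith
    have h9 : 8 * (x * e) = (768 * K * e ^ 3) * y / 6 := by rw [hxy]; ring
    rw [h9]
    have : (768 * K * e ^ 3) * y ≤ y ^ 2 * y := mul_le_mul_of_nonneg_right h8 hy0.le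
    nlinarith
  rw [Real.exp_neg, ← div_eq_mul_inv, div_le_iff₀ (Real.exp_pos y)]
  linarith

/-- Lower bound for integer values of the logarithmic parameter. -/
theorem K_bound (G : SimpleGraph V) {ε : ℝ} {d : ℕ} (hreg : ∀ x, (nbrs G x).card = d)
    (h0 : 0 ≤ ε) {K : ℕ} (hK1 : 1 ≤ K) (hK : (196608:ℝ) * (K:ℝ) ^ 3 ≤ Real.exp K)
    (hd : Real.exp (4 * K) ≤ d) (hε : ε ≤ Real.exp (-(4 * K))) (σ : Strategy G) (v₀ : V) :
    ENNReal.ofReal ((K:ℝ) * Fintype.card V / 16) ≤ expCover G ε σ v₀ := by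
  have hKr : (1:ℝ) ≤ K := by exact_mod_cast hK1
  have hd2 : 2 ≤ d := by
    have h1 : (2:ℝ) ≤ Real.exp (4 * K) := by
      have := Real.add_one_le_exp (4 * (K:ℝ))
      linarith
    exact_mod_cast h1.trans hd
  have hdr : (2:ℝ) ≤ d := by exact_mod_cast hd2
  have hε2 : ε * (K * Real.exp K) ≤ 1 / 8 := by
    have h1 : (K:ℝ) ≤ Real.exp K := by
      have := Real.add_one_le_exp (K:ℝ)
      linarith
    have h2 : (K:ℝ) * Real.exp K ≤ Real.exp (2 * K) := by
      calc (K:ℝ) * Real.exp K ≤ Real.exp K * Real.exp K :=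
            mul_le_mul_of_nonneg_right h1 (Real.exp_pos _).le
        _ = _ := by rw [← Real.exp_add]; congr 1; ring
    calc ε * (K * Real.exp K) ≤ Real.exp (-(4 * K)) * Real.exp (2 * K) := by
          apply mul_le_mul hε h2 (by positivity) (Real.exp_pos _).le
      _ = Real.exp (-(2 * K)) := by rw [← Real.exp_add]; congr 1; ring
      _ ≤ 1 / 8 := by
          have h3 : (8:ℝ) ≤ Real.exp (2 * K) := by
            have h4 : (8:ℝ) ≤ 196608 * (K:ℝ) ^ 3 := by
              have : (1:ℝ) ≤ (K:ℝ) ^ 3 := one_le_pow₀ hKr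
              linarith
            have h5 : Real.exp K ≤ Real.exp (2 * K) := Real.exp_le_exp.2 (by linarith)
            linarith
          rw [Real.exp_neg, ← one_div]
          exact div_le_div_of_nonneg_left (by norm_num) (by norm_num) h3
  refine le_trans ?_ (core G hreg hd2 K hK1 h0 hε2 σ v₀)
  apply ENNReal.ofReal_le_ofReal
  have hn2 : (2:ℝ) ≤ Fintype.card V := by
    have : (nbrs G v₀).card ≤ Fintype.card V := Finset.card_le_univ _
    rw [hreg] at this
    exact_mod_cast hd2.trans this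
  have hnum := numeric hK1 hK hd
  set n : ℝ := (Fintype.card V : ℝ) with hn
  set δ : ℝ := Real.exp (-((d:ℝ) / (16 * (K * Real.exp (2 * K))))) with hδ
  have hd0 : (0:ℝ) < d := by linarith
  rw [div_le_div_iff₀ (by norm_num) (by positivity)]
  have h1 : (d * (K * (d - 1) * Real.exp K)) * (n * δ) = (K * (d - 1) * n) * (d * Real.exp K * δ) := by
    ring
  have h2 : (K * ((d:ℝ) - 1) * n) * (d * Real.exp K * δ) ≤ (K * (d - 1) * n) * (1 / 8) :=
    mul_le_mul_of_nonneg_left hnum (by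
      have : (0:ℝ) ≤ (d:ℝ) - 1 := by linarith
      positivity)
  have h3 : K * n * (3 * d) ≤ ((n - 1) * (K * (d - 1)) - (K * (d - 1) * n) * (1 / 8)) * 16 := by
    have e : ((n - 1) * (K * ((d:ℝ) - 1)) - (K * (d - 1) * n) * (1 / 8)) * 16 - K * n * (3 * d)
        = K * (16 * (7 / 8 * n - 1) * (d - 1) - 3 * n * d) := by ring
    have h4 : 0 ≤ 16 * (7 / 8 * n - 1) * ((d:ℝ) - 1) - 3 * n * d := by nlinarith
    have h5 : 0 ≤ (K:ℝ) * (16 * (7 / 8 * n - 1) * ((d:ℝ) - 1) - 3 * n * d) :=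
      mul_nonneg (by linarith) h4
    linarith
  nlinarith

/-- **Lower bound.**  `E_v[τ_cov] ≥ c · n · min(log d, log(1/ε))` for every `d`-regular graph on `n`
vertices, every start and every strategy. -/
theorem log_bound : ∃ c : ℝ, 0 < c ∧ ∀ (V : Type) [Fintype V] (G : SimpleGraph V) (d : ℕ) (ε : ℝ),
    (∀ x, (nbrs G x).card = d) → 2 ≤ d → 0 < ε → ε ≤ 1 → ∀ (v : V) (σ : Strategy G),
      ENNReal.ofReal (c * Fintype.card V * min (Real.log d) (Real.log (1 / ε)))
        ≤ expCover G ε σ v := by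
  obtain ⟨K0, hK01, hK0⟩ := exists_K0
  have hK0r : (1:ℝ) ≤ K0 := by exact_mod_cast hK01
  refine ⟨1 / (128 * (K0 + 1)), by positivity, ?_⟩
  intro V _ G d ε hreg hd h0 h1 v σ
  set ℓ : ℝ := min (Real.log d) (Real.log (1 / ε)) with hℓ
  have hdr : (2:ℝ) ≤ d := by exact_mod_cast hd
  have hn2 : (2:ℝ) ≤ Fintype.card V := by
    have : (nbrs G v).card ≤ Fintype.card V := Finset.card_le_univ _
    rw [hreg] at this
    exact_mod_cast hd.trans this
  set n : ℝ := (Fintype.card V : ℝ) with hn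
  by_cases hsmall : ℓ < 8 * (K0 + 1)
  · refine le_trans ?_ (trivial_bound G hreg (by omega) σ v)
    apply ENNReal.ofReal_le_ofReal
    calc 1 / (128 * ((K0:ℝ) + 1)) * n * ℓ ≤ 1 / (128 * ((K0:ℝ) + 1)) * n * (8 * (K0 + 1)) :=
          mul_le_mul_of_nonneg_left hsmall.le (by positivity)
      _ = n / 16 := by field_simp; norm_num
      _ ≤ n - 1 := by linarith
  · push Not at hsmall
    set K : ℕ := ⌊ℓ / 4⌋₊ with hKdef
    have hℓ0 : 0 ≤ ℓ / 4 := by linarith
    have hKle : (K:ℝ) ≤ ℓ / 4 := Nat.floor_le hℓ0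
    have hKge : ℓ / 4 < K + 1 := Nat.lt_floor_add_one _
    have hKK0 : K0 ≤ K := by
      apply Nat.le_floor
      linarith
    have hK1 : 1 ≤ K := hK01.trans hKK0
    have hlogd : ℓ ≤ Real.log d := min_le_left _ _
    have hlogε : ℓ ≤ Real.log (1 / ε) := min_le_right _ _
    have hdK : Real.exp (4 * K) ≤ d := by
      rw [← Real.le_log_iff_exp_le (by linarith)]
      linarith
    have hεK : ε ≤ Real.exp (-(4 * K)) := by
      have h3 : Real.exp (4 * K) ≤ 1 / ε := by
        rw [← Real.le_log_iff_exp_le (by positivity)]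
        linarith
      rw [Real.exp_neg, ← one_div]
      rw [le_div_iff₀ h0] at h3
      rw [le_div_iff₀ (Real.exp_pos _)]
      linarith
    refine le_trans ?_ (K_bound G hreg h0.le hK1 (hK0 K hKK0) hdK hεK σ v)
    apply ENNReal.ofReal_le_ofReal
    have h4 : 1 / (128 * ((K0:ℝ) + 1)) ≤ 1 / 128 := by
      apply one_div_le_one_div_of_le (by norm_num)
      linarith
    have h5 : ℓ / 8 ≤ K := by linarith
    calc 1 / (128 * ((K0:ℝ) + 1)) * n * ℓ = (1 / (128 * ((K0:ℝ) + 1))) * (n * ℓ) := by ring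
      _ ≤ (1 / 128) * (n * ℓ) := mul_le_mul_of_nonneg_right h4 (by
          have : 0 ≤ ℓ := by linarith
          positivity)
      _ = (ℓ / 8) * n / 16 := by ring
      _ ≤ K * n / 16 := by
          have := mul_le_mul_of_nonneg_right h5 (by linarith : (0:ℝ) ≤ n)
          linarith

theorem nbrs_card_of_regular {V : Type} [Fintype V] (G : SimpleGraph V) {d : ℕ}
    (h : G.IsRegularOfDegree d) (x : V) : (nbrs G x).card = d := by
  have := h x
  rw [← this, ← SimpleGraph.card_neighborFinset_eq_degree]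
  congr 1
  ext y
  rw [mem_nbrs, SimpleGraph.mem_neighborFinset]

end V11329.BW
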