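import Pool.Agent.V11329.BW.Super

/-!
# The lower bound for the expected cover time (MP_763ca5_pr)
-/

open Finset Filter Topology

namespace V11329.BW

variable {V : Type*} [Fintype V]

open scoped Classical

section
variable (G : SimpleGraph V) {a θ ε : ℝ} {L d : ℕ}

theorem not_bad_start (hreg : ∀ x, (nbrs G x).card = d) (hd : (1:ℝ) < d) (v₀ u : V) :
    ¬ BadS G a L (v₀, []) u := by
  have hd0 : 0 < (d:ℝ) := by linarith
  have hw : ∀ v, wt G a L (v₀, []) v ≤ 1 := by
    intro v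
    unfold wt
    have e : cnt G v (v₀, ([] : List (V × Bool))).2 = 0 := rfl
    rw [e]
    split_ifs
    · norm_num
    · simp
  have hB : Bv G a L (v₀, []) u ≤ 1 := by
    unfold Bv
    rw [hreg, div_le_one hd0]
    calc ∑ v ∈ nbrs G u, wt G a L (v₀, []) v ≤ ∑ v ∈ nbrs G u, (1:ℝ) :=
          Finset.sum_le_sum (fun v _ => hw v)
      _ = d := by rw [Finset.sum_const, hreg]; simp
  intro h
  have : 2 < Bv G a L (v₀, []) u := h
  linarith

theorem Phi_start (hreg : ∀ x, (nbrs G x).card = d) (hd : (1:ℝ) < d) (H : ℝ) (v₀ : V) :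
    Phi G a L H (v₀, []) = ((Fintype.card V : ℝ) - 1) * L := by
  unfold Phi
  have h1 : ∀ v, T G a L (v₀, []) v = (L:ℝ) - (if v = v₀ then (L:ℝ) else 0) := by
    intro v
    unfold T
    have hNB : ¬ NB G a L (v₀, []) v := by
      rintro ⟨u, _, hu⟩
      exact not_bad_start G hreg hd v₀ u hu
    have hV : Visited (v₀, ([] : List (V × Bool))) v ↔ v = v₀ := by unfold Visited; simp
    by_cases h : v = v₀
    · rw [if_pos (Or.inl (hV.2 h)), if_pos h]; ring
    · rw [if_neg (by rw [hV]; tauto), if_neg h]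
      have e : cnt G v (v₀, ([] : List (V × Bool))).2 = 0 := rfl
      rw [e]
      unfold psi
      simp
  have h2 : ∀ u, (if BadS G a L (v₀, []) u then (1:ℝ) else 0) = 0 := by
    intro u
    rw [if_neg (not_bad_start G hreg hd v₀ u)]
  simp only [h1, h2]
  rw [Finset.sum_sub_distrib, Finset.sum_ite_eq', if_pos (mem_univ _)]
  simp
  ring

theorem Phi_le (ha : 1 ≤ a) {H : ℝ} (s : St V) :
    Phi G a L H s ≤ ((Fintype.card V : ℝ) * (L * a ^ L)) * unc s
      + H * ∑ u, (if BadS G a L s u then (1:ℝ) else 0) := by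
  unfold Phi
  have : ∑ v, T G a L s v ≤ ((Fintype.card V : ℝ) * (L * a ^ L)) * unc s := by
    by_cases hc : Covered s
    · have hu : unc s = 0 := by unfold unc; rw [if_pos hc]
      rw [hu, mul_zero]
      apply le_of_eq
      apply Finset.sum_eq_zero
      intro v _
      unfold T; rw [if_pos (Or.inl (hc v))]
    · have hu : unc s = 1 := by unfold unc; rw [if_neg hc]
      rw [hu, mul_one]
      calc ∑ v, T G a L s v ≤ ∑ v : V, (L:ℝ) * a ^ L := by
            apply Finset.sum_le_sum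
            intro v _
            unfold T
            split_ifs
            · positivity
            · exact psi_le ha L _
        _ = _ := by rw [Finset.sum_const, nsmul_eq_mul]; rfl
  linarith

theorem iter_drift (hreg : ∀ x, (nbrs G x).card = d) (had : a * ((d:ℝ) - 1) = d)
    (hd : (1:ℝ) < d) (ha : 1 ≤ a) (h0 : 0 ≤ ε) (h1 : ε ≤ 1) (σ : Strategy G) (s : St V) (t : ℕ) :
    Phi G a L (d * (L * a ^ L)) s
      - (2 * d + ε * (L * a ^ L)) * ∑ i ∈ range t, (stepE G ε σ)^[i] unc s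
      ≤ (stepE G ε σ)^[t] (Phi G a L (d * (L * a ^ L))) s := by
  induction t with
  | zero => simp
  | succ t ih =>
    rw [Finset.sum_range_succ]
    have h2 : ∀ s, 1 * Phi G a L (d * (L * a ^ L)) s + (-(2 * d + ε * (L * a ^ L))) * unc s
        ≤ stepE G ε σ (Phi G a L (d * (L * a ^ L))) s := by
      intro s
      have := Phi_drift (L := L) G hreg had hd ha h0 h1 σ s
      linarith
    have h3 := iter_mono G h0 h1 σ t h2 s
    rw [iter_lin] at h3
    rw [Function.iterate_succ_apply]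
    linarith

/-- the bound for finite time -/
theorem finite_time (hreg : ∀ x, (nbrs G x).card = d) (had : a * ((d:ℝ) - 1) = d)
    (hd : (1:ℝ) < d) (ha : 1 ≤ a) (hθ : 0 ≤ θ) (h0 : 0 ≤ ε) (h1 : ε ≤ 1)
    (hβ : 2 * θ ≤ (d:ℝ) - 1) (σ : Strategy G) (v₀ : V) (t : ℕ) :
    ((Fintype.card V : ℝ) - 1) * L
      - (2 * d + ε * (L * a ^ L)) * ∑ i ∈ range t, pUnc G ε σ v₀ i
      ≤ ((Fintype.card V : ℝ) * (L * a ^ L)) * pUnc G ε σ v₀ t
        + (d * (L * a ^ L)) * ((Fintype.card V : ℝ) * Real.exp (-θ + d * rho a θ ε d L 0)) := by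
  have h2 := iter_drift (L := L) G hreg had hd ha h0 h1 σ (v₀, []) t
  rw [Phi_start G hreg hd] at h2
  have h3 : ∀ s : St V, Phi G a L (d * (L * a ^ L)) s
      ≤ ((Fintype.card V : ℝ) * (L * a ^ L)) * unc s
      + (d * (L * a ^ L)) * ∑ u, (if BadS G a L s u then (1:ℝ) else 0) :=
    fun s => Phi_le G ha s
  have h4 := iter_mono G h0 h1 σ t h3 (v₀, [])
  rw [iter_lin, iter_sum] at h4
  have h5 : ∑ u, (stepE G ε σ)^[t] (fun s => if BadS G a L s u then (1:ℝ) else 0) (v₀, [])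
      ≤ (Fintype.card V : ℝ) * Real.exp (-θ + d * rho a θ ε d L 0) := by
    calc _ ≤ ∑ u : V, Real.exp (-θ + d * rho a θ ε d L 0) :=
          Finset.sum_le_sum (fun u _ => bad_prob G hreg had ha hθ h0 h1 hd hβ σ u v₀ t)
      _ = _ := by rw [Finset.sum_const, nsmul_eq_mul]; rfl
  have h6 : (d * (L * a ^ L)) * ∑ u, (stepE G ε σ)^[t]
      (fun s => if BadS G a L s u then (1:ℝ) else 0) (v₀, [])
      ≤ (d * (L * a ^ L)) * ((Fintype.card V : ℝ) * Real.exp (-θ + d * rho a θ ε d L 0)) :=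
    mul_le_mul_of_nonneg_left h5 (by positivity)
  have h7 : (stepE G ε σ)^[t] unc (v₀, []) = pUnc G ε σ v₀ t := rfl
  have h8 : ∀ i, (stepE G ε σ)^[i] unc (v₀, []) = pUnc G ε σ v₀ i := fun _ => rfl
  simp only [h8] at h2 h4
  linarith

theorem pUnc_nonneg (h0 : 0 ≤ ε) (h1 : ε ≤ 1) (σ : Strategy G) (v₀ : V) (t : ℕ) :
    0 ≤ pUnc G ε σ v₀ t := iter_nonneg G h0 h1 σ unc_nonneg t _

/-- passing to the limit -/
theorem limit_bound (h0 : 0 ≤ ε) (h1 : ε ≤ 1) (σ : Strategy G) (v₀ : V) {A c B D : ℝ}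
    (hc : 0 < c)
    (h : ∀ t, A - c * ∑ i ∈ range t, pUnc G ε σ v₀ i ≤ B * pUnc G ε σ v₀ t + D) :
    ENNReal.ofReal ((A - D) / c) ≤ expCover G ε σ v₀ := by
  by_cases htop : expCover G ε σ v₀ = ⊤
  · rw [htop]; exact le_top
  · have hlim := ENNReal.tendsto_atTop_zero_of_tsum_ne_top htop
    have hp : Tendsto (fun t => pUnc G ε σ v₀ t) atTop (𝓝 0) := by
      have h2 := (ENNReal.tendsto_toReal ENNReal.zero_ne_top).comp hlim
      simp only [ENNReal.toReal_zero] at h2
      refine h2.congr (fun t => ?_)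
      simp only [Function.comp]
      exact ENNReal.toReal_ofReal (pUnc_nonneg G h0 h1 σ v₀ t)
    have hsum : ∀ t, ∑ i ∈ range t, pUnc G ε σ v₀ i ≤ (expCover G ε σ v₀).toReal := by
      intro t
      have h2 : ∑ i ∈ range t, ENNReal.ofReal (pUnc G ε σ v₀ i) ≤ expCover G ε σ v₀ :=
        ENNReal.sum_le_tsum _
      rw [← ENNReal.ofReal_sum_of_nonneg (fun i _ => pUnc_nonneg G h0 h1 σ v₀ i)] at h2
      exact (ENNReal.ofReal_le_iff_le_toReal htop).1 h2
    have hle : ∀ t, A - c * (expCover G ε σ v₀).toReal ≤ B * pUnc G ε σ v₀ t + D := by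
      intro t
      have := h t
      have h3 := mul_le_mul_of_nonneg_left (hsum t) hc.le
      linarith
    have hlim2 : Tendsto (fun t => B * pUnc G ε σ v₀ t + D) atTop (𝓝 (B * 0 + D)) :=
      (hp.const_mul B).add_const D
    have h4 := ge_of_tendsto' hlim2 hle
    rw [mul_zero, zero_add] at h4
    rw [← ENNReal.ofReal_toReal htop]
    apply ENNReal.ofReal_le_ofReal
    rw [div_le_iff₀ hc]
    linarith

/-- The main estimate. -/
theorem core (hreg : ∀ x, (nbrs G x).card = d) (hd : 2 ≤ d) (K : ℕ) (hK : 1 ≤ K) (h0 : 0 ≤ ε)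
    (hε : ε * (K * Real.exp K) ≤ 1 / 8) (σ : Strategy G) (v₀ : V) :
    ENNReal.ofReal ((((Fintype.card V : ℝ) - 1) * (K * (d - 1))
      - (d * (K * (d - 1) * Real.exp K)) *
        ((Fintype.card V : ℝ) * Real.exp (-(d / (16 * (K * Real.exp (2 * K))))))) / (3 * d))
      ≤ expCover G ε σ v₀ := by
  have hKr : (1:ℝ) ≤ K := by exact_mod_cast hK
  have hdr : (2:ℝ) ≤ d := by exact_mod_cast hd
  have hd0 : (0:ℝ) < d := by linarith
  have hd1 : (0:ℝ) < (d:ℝ) - 1 := by linarith
  have hn0 : (0:ℝ) ≤ Fintype.card V := Nat.cast_nonneg _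
  have heK : (1:ℝ) ≤ Real.exp K := Real.one_le_exp (by linarith)
  have he2K : (1:ℝ) ≤ Real.exp (2 * K) := Real.one_le_exp (by linarith)
  have hε1 : ε ≤ 1 := by
    have : 1 ≤ (K:ℝ) * Real.exp K := by nlinarith
    nlinarith
  set a : ℝ := d / (d - 1) with hadef
  have had : a * ((d:ℝ) - 1) = d := by rw [hadef]; field_simp
  have ha : 1 ≤ a := by rw [hadef, le_div_iff₀ hd1]; linarith
  set L : ℕ := K * (d - 1) with hL
  have hLr : (L:ℝ) = K * (d - 1) := by
    rw [hL, Nat.cast_mul, Nat.cast_sub (by omega)]; simp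
  have hLnn : (0:ℝ) ≤ L := Nat.cast_nonneg _
  have haL : a ^ L ≤ Real.exp K := by
    have h2 : a ≤ Real.exp (1 / (d - 1)) := by
      have h3 := Real.add_one_le_exp (1 / ((d:ℝ) - 1))
      have h4 : 1 / ((d:ℝ) - 1) + 1 = a := by rw [hadef]; field_simp; ring
      linarith
    calc a ^ L ≤ (Real.exp (1 / (d - 1))) ^ L := pow_le_pow_left₀ (by linarith) h2 L
      _ = Real.exp K := by
          rw [← Real.exp_nat_mul, hLr]
          congr 1
          field_simp
  have haL0 : 0 ≤ a ^ L := by positivity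
  set θ : ℝ := d / (8 * (K * Real.exp (2 * K))) with hθdef
  have hden : (8:ℝ) ≤ 8 * (K * Real.exp (2 * K)) := by nlinarith
  have hθ : 0 ≤ θ := by rw [hθdef]; positivity
  have hβ : 2 * θ ≤ (d:ℝ) - 1 := by
    have : θ ≤ d / 8 := by
      rw [hθdef]
      exact div_le_div_of_nonneg_left hd0.le (by norm_num) hden
    linarith
  have hrho : -θ + d * rho a θ ε d L 0 ≤ -(d / (16 * (K * Real.exp (2 * K)))) := by
    have e1 : (d:ℝ) / (16 * (K * Real.exp (2 * K))) = θ / 2 := by rw [hθdef]; field_simp; norm_num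
    rw [e1]
    have h2 : ∀ j ∈ Finset.Ico 0 L, rr a θ ε d j
        ≤ θ ^ 2 * Real.exp (2 * K) / (2 * d ^ 3) + 2 * ε * θ * Real.exp K / (d * (d - 1)) := by
      intro j hj
      rw [Finset.mem_Ico] at hj
      unfold rr
      have h3 : a ^ 2 * (a ^ j) ^ 2 ≤ Real.exp (2 * K) := by
        have h4 : a ^ (j + 1) ≤ a ^ L := pow_le_pow_right₀ ha (by omega)
        have h5 : a ^ 2 * (a ^ j) ^ 2 = (a ^ (j + 1)) ^ 2 := by ring
        have h6 : Real.exp (2 * K) = (Real.exp K) ^ 2 := by rw [← Real.exp_nat_mul]; norm_num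
        rw [h5, h6]
        exact pow_le_pow_left₀ (by positivity) (h4.trans haL) 2
      have h7 : a ^ j ≤ Real.exp K := (pow_le_pow_right₀ ha (by omega)).trans haL
      have h8 : θ ^ 2 * a ^ 2 * (a ^ j) ^ 2 ≤ θ ^ 2 * Real.exp (2 * K) := by
        rw [mul_assoc]; exact mul_le_mul_of_nonneg_left h3 (by positivity)
      have h9 : 2 * ε * θ * a ^ j ≤ 2 * ε * θ * Real.exp K :=
        mul_le_mul_of_nonneg_left h7 (by positivity)
      exact add_le_add (div_le_div_of_nonneg_right h8 (by positivity))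
        (div_le_div_of_nonneg_right h9 (by positivity))
    have h3 : rho a θ ε d L 0 ≤ L * (θ ^ 2 * Real.exp (2 * K) / (2 * d ^ 3)
        + 2 * ε * θ * Real.exp K / (d * (d - 1))) := by
      unfold rho
      calc _ ≤ ∑ j ∈ Finset.Ico 0 L, (θ ^ 2 * Real.exp (2 * K) / (2 * (d:ℝ) ^ 3)
        + 2 * ε * θ * Real.exp K / (d * (d - 1))) := Finset.sum_le_sum h2
        _ = _ := by rw [Finset.sum_const, Nat.card_Ico, nsmul_eq_mul]; simp
    have h4 : d * rho a θ ε d L 0 ≤ θ * (K * θ * Real.exp (2 * K) / (2 * d))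
        + 2 * θ * (ε * (K * Real.exp K)) := by
      calc d * rho a θ ε d L 0 ≤ d * (L * (θ ^ 2 * Real.exp (2 * K) / (2 * d ^ 3)
        + 2 * ε * θ * Real.exp K / (d * (d - 1)))) := mul_le_mul_of_nonneg_left h3 hd0.le
        _ = θ * (K * θ * Real.exp (2 * K) / (2 * d)) * ((d - 1) / d)
            + 2 * θ * (ε * (K * Real.exp K)) := by
            rw [hLr]; field_simp
        _ ≤ θ * (K * θ * Real.exp (2 * K) / (2 * d)) * 1 + 2 * θ * (ε * (K * Real.exp K)) := by
            apply add_le_add _ (le_refl _)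
            apply mul_le_mul_of_nonneg_left _ (by positivity)
            rw [div_le_one hd0]; linarith
        _ = _ := by ring
    have h5 : K * θ * Real.exp (2 * K) / (2 * d) = 1 / 16 := by
      rw [hθdef]; field_simp; norm_num
    rw [h5] at h4
    nlinarith
  have hLa : (L:ℝ) * a ^ L ≤ K * (d - 1) * Real.exp K := by
    rw [hLr]; exact mul_le_mul_of_nonneg_left haL (by positivity)
  have hLa0 : 0 ≤ (L:ℝ) * a ^ L := by positivity
  have hc : 2 * (d:ℝ) + ε * (L * a ^ L) ≤ 3 * d := by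
    have h2 : ε * (L * a ^ L) ≤ ε * (K * (d - 1) * Real.exp K) := mul_le_mul_of_nonneg_left hLa h0
    have h3 : ε * (K * (d - 1) * Real.exp K) = (ε * (K * Real.exp K)) * (d - 1) := by ring
    have h4 : (ε * (K * Real.exp K)) * ((d:ℝ) - 1) ≤ 1 / 8 * (d - 1) :=
      mul_le_mul_of_nonneg_right hε hd1.le
    linarith
  apply limit_bound (B := (Fintype.card V : ℝ) * (K * (d - 1) * a ^ L)) G h0 hε1 σ v₀ (by positivity)
  intro t
  have hft := finite_time (L := L) G hreg had (by linarith) ha hθ h0 hε1 hβ σ v₀ t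
  have hS : 0 ≤ ∑ i ∈ range t, pUnc G ε σ v₀ i :=
    Finset.sum_nonneg (fun i _ => pUnc_nonneg G h0 hε1 σ v₀ i)
  have h2 := mul_le_mul_of_nonneg_right hc hS
  have h3 : (d * (L * a ^ L)) * ((Fintype.card V : ℝ) * Real.exp (-θ + d * rho a θ ε d L 0))
      ≤ (d * (K * (d - 1) * Real.exp K)) *
        ((Fintype.card V : ℝ) * Real.exp (-(d / (16 * (K * Real.exp (2 * K)))))) := by
    apply mul_le_mul
    · exact mul_le_mul_of_nonneg_left hLa hd0.le
    · exact mul_le_mul_of_nonneg_left (Real.exp_le_exp.2 hrho) hn0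
    · positivity
    · positivity
  rw [hLr] at hft
  rw [hLr] at h2 h3
  linarith

end

end V11329.BW
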