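import Pool.Agent.V11329.BW.Bad

/-!
# The supermartingale controlling the bad vertices (MP_763ca5_pr)
-/

open Finset Filter Topology

namespace V11329.BW

variable {V : Type*} [Fintype V]

open scoped Classical

section
variable (G : SimpleGraph V) {a θ ε : ℝ} {L d : ℕ}

theorem swap_sum (x u : V) (f : V → ℝ) :
    ∑ y ∈ nbrs G x, (if G.Adj u y then f y else 0)
      = ∑ v ∈ nbrs G u, (if G.Adj x v then f v else 0) := by
  have e : ∀ x u : V, ∑ y ∈ nbrs G x, (if G.Adj u y then f y else 0)
      = ∑ y, if (G.Adj x y ∧ G.Adj u y) then f y else 0 := by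
    intro x u
    have : nbrs G x = univ.filter (fun y => G.Adj x y) := by
      ext y; rw [mem_nbrs, Finset.mem_filter]; simp
    rw [this, Finset.sum_filter]
    apply Finset.sum_congr rfl
    intro y _
    by_cases h1 : G.Adj x y <;> by_cases h2 : G.Adj u y <;> simp [h1, h2]
  rw [e x u, e u x]
  apply Finset.sum_congr rfl
  intro y _
  simp only [and_comm]

theorem MM_super (hreg : ∀ x, (nbrs G x).card = d) (had : a * ((d:ℝ) - 1) = d)
    (ha : 1 ≤ a) (hθ : 0 ≤ θ) (h0 : 0 ≤ ε) (h1 : ε ≤ 1) (hd : (1:ℝ) < d)
    (hβ : 2 * θ ≤ (d:ℝ) - 1) (σ : Strategy G) (u : V) (s : St V) :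
    stepE G ε σ (MM G a θ ε d L u) s ≤ MM G a θ ε d L u s := by
  obtain ⟨x, past⟩ := s
  have hd1 : 0 < (d:ℝ) - 1 := by linarith
  have hd0 : 0 < (d:ℝ) := by linarith
  unfold stepE
  rw [hreg]
  simp only
  by_cases hb : BadS G a L (x, past) u
  · have e : ∀ y b, MM G a θ ε d L u (y, (x, b) :: past) = Real.exp (2 * θ) := by
      intro y b
      unfold MM; rw [if_pos (badS_succ_of G a L y x b past u hb)]
    simp only [e]
    have e2 : MM G a θ ε d L u (x, past) = Real.exp (2 * θ) := by
      unfold MM; rw [if_pos hb]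
    rw [e2, Finset.sum_const, hreg, nsmul_eq_mul, mul_div_assoc, mul_div_cancel₀ _ hd0.ne']
    linarith
  · set Λ : ℝ := θ * Bv G a L (x, past) u + RR G a θ ε d L (x, past) u with hΛ
    set β : ℝ := θ * S1 G a L (x, past) u / (d * (d - 1)) with hβdef
    set q : ℝ := θ ^ 2 * a ^ 2 * S2 G a L (x, past) u / (2 * d ^ 3) with hq
    have e2 : MM G a θ ε d L u (x, past) = Real.exp Λ := by
      unfold MM; rw [if_neg hb]
    have hS1 : 0 ≤ S1 G a L (x, past) u := Finset.sum_nonneg (fun v _ => by
      have := wt_nonneg (L := L) G ha (x, past) v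
      split_ifs <;> linarith)
    have hS2 : 0 ≤ S2 G a L (x, past) u := Finset.sum_nonneg (fun v _ => by
      split_ifs
      · positivity
      · exact le_refl _)
    have hβ0 : 0 ≤ β := by rw [hβdef]; positivity
    have hq0 : 0 ≤ q := by rw [hq]; positivity
    have hB2 : Bv G a L (x, past) u ≤ 2 := by
      by_contra h
      exact hb (badS_of_lt G a L (x, past) u (not_le.1 h))
    have hβ1 : β ≤ 1 := by
      have h2 : S1 G a L (x, past) u ≤ 2 * d := by
        have h3 : S1 G a L (x, past) u ≤ ∑ v ∈ nbrs G u, wt G a L (x, past) v :=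
          Finset.sum_le_sum (fun v _ => by
            have := wt_nonneg (L := L) G ha (x, past) v
            split_ifs <;> linarith)
        unfold Bv at hB2
        rw [hreg, div_le_iff₀ hd0] at hB2
        linarith
      rw [hβdef, div_le_one (by positivity)]
      calc θ * S1 G a L (x, past) u ≤ θ * (2 * d) := mul_le_mul_of_nonneg_left h2 hθ
        _ = (2 * θ) * d := by ring
        _ ≤ (d - 1) * d := mul_le_mul_of_nonneg_right hβ hd0.le
        _ = d * (d - 1) := by ring
    have hU0 : ∀ y, 0 ≤ (if G.Adj u y then θ * a * wt G a L (x, past) y / d else 0) := by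
      intro y
      have := wt_nonneg (L := L) G ha (x, past) y
      split_ifs
      · positivity
      · exact le_refl _
    have hM : ∀ y b, G.Adj x y → MM G a θ ε d L u (y, (x, b) :: past)
        ≤ Real.exp (Λ + β - q - 2 * ε * β)
          * Real.exp (-(if G.Adj u y then θ * a * wt G a L (x, past) y / d else 0)) := by
      intro y b hxy
      rw [← Real.exp_add]
      have hp := pointwise (L := L) G hreg had ha hθ h0 hd x y hxy b past u
      rw [← hβdef, ← hq, ← hΛ] at hp
      unfold MM
      by_cases hb' : BadS G a L (y, (x, b) :: past) u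
      · rw [if_pos hb']
        have h3 : 2 < Bv G a L (y, (x, b) :: past) u := by
          rcases badS_succ G a L y x b past u hb' with h | h
          · exact h
          · exact absurd h hb
        have h4 := RR_nonneg (L := L) G ha hθ h0 hd (y, (x, b) :: past) u
        apply Real.exp_le_exp.2
        nlinarith
      · rw [if_neg hb']
        apply Real.exp_le_exp.2
        linarith
    have hran : (∑ y ∈ nbrs G x, MM G a θ ε d L u (y, (x, false) :: past)) / d
        ≤ Real.exp (Λ - 2 * ε * β) := by
      rw [div_le_iff₀ hd0]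
      have hsum1 : ∑ y ∈ nbrs G x, (if G.Adj u y then θ * a * wt G a L (x, past) y / d else 0)
          = d * β := by
        rw [swap_sum G x u (fun y => θ * a * wt G a L (x, past) y / d), hβdef]
        have : ∑ v ∈ nbrs G u, (if G.Adj x v then θ * a * wt G a L (x, past) v / d else 0)
            = θ * a / d * S1 G a L (x, past) u := by
          unfold S1
          rw [Finset.mul_sum]
          apply Finset.sum_congr rfl
          intro v _
          simp only
          split_ifs
          · ring
          · ring
        rw [this]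
        field_simp
        linear_combination (θ * S1 G a L (x, past) u) * had
      have hsum2 : ∑ y ∈ nbrs G x, (if G.Adj u y then θ * a * wt G a L (x, past) y / d else 0) ^ 2 / 2
          = d * q := by
        have : ∀ y, (if G.Adj u y then θ * a * wt G a L (x, past) y / d else 0) ^ 2 / 2
            = (if G.Adj u y then (θ * a * wt G a L (x, past) y / d) ^ 2 / 2 else 0) := by
          intro y; split_ifs <;> ring
        simp_rw [this]
        rw [swap_sum G x u (fun y => (θ * a * wt G a L (x, past) y / d) ^ 2 / 2), hq]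
        have : ∑ v ∈ nbrs G u, (if G.Adj x v then (θ * a * wt G a L (x, past) v / d) ^ 2 / 2 else 0)
            = θ ^ 2 * a ^ 2 / (2 * d ^ 2) * S2 G a L (x, past) u := by
          unfold S2
          rw [Finset.mul_sum]
          apply Finset.sum_congr rfl
          intro v _
          simp only
          split_ifs
          · field_simp
          · ring
        rw [this]
        field_simp
      have h5 : ∑ y ∈ nbrs G x,
          Real.exp (-(if G.Adj u y then θ * a * wt G a L (x, past) y / d else 0))
          ≤ d * (1 - β + q) := by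
        calc _ ≤ ∑ y ∈ nbrs G x, (1 - (if G.Adj u y then θ * a * wt G a L (x, past) y / d else 0)
              + (if G.Adj u y then θ * a * wt G a L (x, past) y / d else 0) ^ 2 / 2) :=
              Finset.sum_le_sum (fun y _ => exp_neg_le_quad (hU0 y))
          _ = d * (1 - β + q) := by
              rw [Finset.sum_add_distrib, Finset.sum_sub_distrib, hsum1, hsum2, Finset.sum_const,
                hreg, nsmul_eq_mul]
              ring
      have h6 : 1 - β + q ≤ Real.exp (-β + q) := by
        have := Real.add_one_le_exp (-β + q)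
        linarith
      calc ∑ y ∈ nbrs G x, MM G a θ ε d L u (y, (x, false) :: past)
          ≤ ∑ y ∈ nbrs G x, Real.exp (Λ + β - q - 2 * ε * β)
          * Real.exp (-(if G.Adj u y then θ * a * wt G a L (x, past) y / d else 0)) :=
            Finset.sum_le_sum (fun y hy => hM y false ((mem_nbrs G x y).1 hy))
        _ = Real.exp (Λ + β - q - 2 * ε * β) * ∑ y ∈ nbrs G x,
            Real.exp (-(if G.Adj u y then θ * a * wt G a L (x, past) y / d else 0)) := by
            rw [Finset.mul_sum]
        _ ≤ Real.exp (Λ + β - q - 2 * ε * β) * (d * Real.exp (-β + q)) := by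
            apply mul_le_mul_of_nonneg_left _ (Real.exp_pos _).le
            exact h5.trans (mul_le_mul_of_nonneg_left h6 hd0.le)
        _ = Real.exp (Λ - 2 * ε * β) * d := by
            rw [mul_left_comm, ← Real.exp_add, mul_comm]
            congr 2
            ring
    have hcon : MM G a θ ε d L u (σ.move x past, (x, true) :: past)
        ≤ Real.exp (Λ - 2 * ε * β) * (1 + 2 * β) := by
      calc _ ≤ _ := hM (σ.move x past) true (σ.adj x past)
        _ ≤ Real.exp (Λ + β - q - 2 * ε * β) * 1 := by
            apply mul_le_mul_of_nonneg_left _ (Real.exp_pos _).le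
            rw [← Real.exp_zero]
            apply Real.exp_le_exp.2
            have := hU0 (σ.move x past)
            linarith
        _ ≤ Real.exp (Λ - 2 * ε * β) * Real.exp β := by
            rw [mul_one, ← Real.exp_add]
            apply Real.exp_le_exp.2
            linarith
        _ ≤ _ := mul_le_mul_of_nonneg_left (exp_le_lin hβ0 hβ1) (Real.exp_pos _).le
    rw [e2]
    have hP := Real.exp_pos (Λ - 2 * ε * β)
    calc (1 - ε) * ((∑ y ∈ nbrs G x, MM G a θ ε d L u (y, (x, false) :: past)) / d)
          + ε * MM G a θ ε d L u (σ.move x past, (x, true) :: past)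
        ≤ (1 - ε) * Real.exp (Λ - 2 * ε * β)
          + ε * (Real.exp (Λ - 2 * ε * β) * (1 + 2 * β)) := by
          apply add_le_add
          · exact mul_le_mul_of_nonneg_left hran (by linarith)
          · exact mul_le_mul_of_nonneg_left hcon h0
      _ = Real.exp (Λ - 2 * ε * β) * (2 * ε * β + 1) := by ring
      _ ≤ Real.exp (Λ - 2 * ε * β) * Real.exp (2 * ε * β) :=
          mul_le_mul_of_nonneg_left (Real.add_one_le_exp _) hP.le
      _ = Real.exp Λ := by rw [← Real.exp_add]; congr 1; ring

theorem bad_prob (hreg : ∀ x, (nbrs G x).card = d) (had : a * ((d:ℝ) - 1) = d)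
    (ha : 1 ≤ a) (hθ : 0 ≤ θ) (h0 : 0 ≤ ε) (h1 : ε ≤ 1) (hd : (1:ℝ) < d)
    (hβ : 2 * θ ≤ (d:ℝ) - 1) (σ : Strategy G) (u v₀ : V) (t : ℕ) :
    (stepE G ε σ)^[t] (fun s => if BadS G a L s u then (1:ℝ) else 0) (v₀, [])
      ≤ Real.exp (-θ + d * rho a θ ε d L 0) := by
  have hd0 : 0 < (d:ℝ) := by linarith
  have h2 : ∀ s : St V, (if BadS G a L s u then (1:ℝ) else 0)
      ≤ Real.exp (-(2 * θ)) * MM G a θ ε d L u s + 0 * MM G a θ ε d L u s := by
    intro s
    rw [zero_mul, add_zero]
    unfold MM
    by_cases hb : BadS G a L s u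
    · rw [if_pos hb, if_pos hb, ← Real.exp_add]
      simp
    · rw [if_neg hb, if_neg hb]; positivity
  have h3 := iter_mono G h0 h1 σ t h2 (v₀, [])
  rw [iter_lin, zero_mul, add_zero] at h3
  have h4 : (stepE G ε σ)^[t] (MM G a θ ε d L u) (v₀, []) ≤ MM G a θ ε d L u (v₀, []) :=
    iter_le_of_stepE_le G h0 h1 σ (MM_super G hreg had ha hθ h0 h1 hd hβ σ u) t (v₀, [])
  have hw : ∀ v, wt G a L (v₀, []) v ≤ 1 := by
    intro v
    unfold wt
    have e : cnt G v (v₀, ([] : List (V × Bool))).2 = 0 := rfl
    rw [e]
    split_ifs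
    · norm_num
    · simp
  have hB : Bv G a L (v₀, []) u ≤ 1 := by
    unfold Bv
    rw [hreg, div_le_one hd0]
    calc ∑ v ∈ nbrs G u, wt G a L (v₀, []) v ≤ ∑ v ∈ nbrs G u, (1:ℝ) :=
          Finset.sum_le_sum (fun v _ => hw v)
      _ = d := by rw [Finset.sum_const, hreg]; simp
  have hnb : ¬ BadS G a L (v₀, []) u := by
    intro h
    have : 2 < Bv G a L (v₀, []) u := h
    linarith
  have h5 : MM G a θ ε d L u (v₀, []) ≤ Real.exp (θ + d * rho a θ ε d L 0) := by
    unfold MM
    rw [if_neg hnb]
    apply Real.exp_le_exp.2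
    have hR : RR G a θ ε d L (v₀, []) u = d * rho a θ ε d L 0 := by
      unfold RR
      have : ∀ v ∈ nbrs G u, rho a θ ε d L (cnt G v (v₀, ([] : List (V × Bool))).2)
          = rho a θ ε d L 0 := fun v _ => rfl
      rw [Finset.sum_congr rfl this, Finset.sum_const, hreg, nsmul_eq_mul]
    rw [hR]
    nlinarith
  calc _ ≤ _ := h3
    _ ≤ Real.exp (-(2 * θ)) * Real.exp (θ + d * rho a θ ε d L 0) :=
        mul_le_mul_of_nonneg_left (h4.trans h5) (Real.exp_pos _).le
    _ = _ := by rw [← Real.exp_add]; congr 1; ring

end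

end V11329.BW
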